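import Pool.Agent.Q185.MK.Conds
import Pool.Agent.Y449.MS.All

/-!
Closed affine manifolds with parallel volume whose linear holonomy has one block of discompacity at
most one, with bounded blocks below and above it. In particular the Markus conjecture for
three-manifolds with a parallel plane field with parallel area whose quotient is trivial.
-/

set_option autoImplicit false

open Pool.Agent.W689.Mk Pool.Agent.Y449.MK Pool.Agent.Q185.MK.Conds

namespace Pool.Agent.Results.MP_df2bd8_gt.BlockBelowBounded

/-- A closed affine manifold with parallel volume is given by a connected cover `X` with its group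
`Γ`, developing map `dev` and holonomy `hol`; `H` is a subgroup of finite index of `Γ`.

Let `S 0` be a space of velocities whose geodesics are defined up to time one, and suppose that the
linear holonomy of `H` is bounded on `S (i + 1)` modulo `S i` for `i < m` (for instance `S 0 = 0` and
`m = 0`). Let `V` be a subspace on which the linear holonomy of `H` has discompacity at most one
modulo bounded corrections in `S m` (for instance `V` invariant and Lorentzian, or invariant of
dimension two with bounded determinants). Suppose that there are invariant subspaces
`V + S m = T 0 ≤ T 1 ≤ ⋯ ≤ T k`, with `T k` the whole space, such that the linear holonomy of `H` is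
bounded on `T (i + 1)` modulo `T i`. Then

(1) the developing map is injective,

(2) at every point the velocities in `V + S m` whose geodesic is defined up to time one form the
whole subspace, a half-space or a slab of it,

(3) if moreover `V` is invariant and of dimension at most two, or Lorentzian of dimension at most
three, and the linear holonomy of `H` acts through solvable groups on `S m` and on the quotient by
`V + S m`, then the affine structure is complete: the developing map is a homeomorphism onto the
model space. -/
theorem result (E X Γ : Type) [NormedAddCommGroup E] [NormedSpace ℝ E] [FiniteDimensional ℝ E]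
    [TopologicalSpace X] [T2Space X] [SecondCountableTopology X] [ConnectedSpace X]
    [Group Γ] [MulAction Γ X] (dev : X → E) (hol : Γ →* (E ≃ᵃ[ℝ] E))
    (D : AffData X Γ E dev hol) (H : Subgroup Γ) (hH : H.FiniteIndex)
    (S : ℕ → Submodule ℝ E) (m : ℕ) (hS : BddChain dev hol H S m) (V : Submodule ℝ E)
    (hV : ThinOn hol H V (S m) ∨ LorentzOn hol H V ∨ AreaOn hol H V)
    (T : ℕ → Submodule ℝ E) (k : ℕ) (hT : BddTower hol H T k) (hT0 : T 0 = V ⊔ S m) :
    Function.Injective dev ∧ (∀ x : X, SliceFlat dev (T 0) x) ∧
    (Invt hol H V → (Module.finrank ℝ V ≤ 2 ∨ (Module.finrank ℝ V ≤ 3 ∧ LorentzOn hol H V)) →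
      SolvableOn hol H (S m) (T 0) → IsHomeomorph dev) := by
  have D' : Pool.Agent.W689.Ch.AffMfd X Γ E dev hol := ⟨D.loc, D.cont, D.equi, D.pd, D.cc⟩
  have hV' : ThinOn hol H V (S m) := by
    rcases hV with h | h | h
    · exact h
    · exact thin_of_lorentz h _
    · exact thin_of_area h _
  obtain ⟨h1, h2, h3⟩ := main D' H hH S m hS V hV' T k hT hT0
  refine ⟨h1, h2, fun hVi hdim hs => ?_⟩
  rcases h3 hVi hdim hs with h | ⟨N, hN⟩
  · exact h
  have hsol : Group.IsSolvable (H.map (AffineEquiv.linearHom.comp hol)) := by
    have hsurj := (AffineEquiv.linearHom.comp hol).subgroupMap_surjective H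
    rw [Group.isSolvable_def]
    refine ⟨N, ?_⟩
    rw [← map_derivedSeries_eq hsurj N, eq_bot_iff]
    rintro _ ⟨γ, hγ, rfl⟩
    rw [Subgroup.mem_bot]
    apply Subtype.ext
    apply LinearEquiv.ext
    intro v
    exact hN γ hγ v
  exact Pool.Agent.Y449.MS.Wrap.main Pool.Agent.Y449.MS.All.finv X Γ E dev hol D h1 H hH hsol

end Pool.Agent.Results.MP_df2bd8_gt.BlockBelowBounded
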