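import Pool.Agent.Q185.MK.Glob
import Pool.Agent.Q185.MK.Ex
import Pool.Agent.Y449.MK.DomDefs

/-!
Closed affine manifolds with parallel volume whose linear holonomy has discompacity at most one
relative to complete directions; in particular sums of a Lorentzian (or a two-dimensional) summand
and a summand with a filtration with bounded quotients.
-/

set_option autoImplicit false

open Pool.Agent.W689.Mk Pool.Agent.TH569.MK Pool.Agent.Y449.MK

namespace Pool.Agent.Results.MP_df2bd8_gt.LorentzModuloChain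

variable {X Γ E : Type} [TopologicalSpace X] [Group Γ] [MulAction Γ X]
  [NormedAddCommGroup E] [NormedSpace ℝ E]

/-- Relative discompacity at most one: there is a constant `C` such that for each linear holonomy
`A` of an element of `H`, every plane in `V` contains a vector `d ≠ 0` with `|A (d - s)| ≤ C |d|`
for a vector `s` of `S` with `|s| ≤ C |d|`. (The plane is given by two vectors `p`, `q`; when these
are dependent there is nothing to prove.) -/
def ThinOn (hol : Γ →* (E ≃ᵃ[ℝ] E)) (H : Subgroup Γ) (V S : Submodule ℝ E) : Prop :=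
  ∃ C : ℝ, ∀ γ ∈ H, ∀ p ∈ V, ∀ q ∈ V, ∃ a b : ℝ, (a ≠ 0 ∨ b ≠ 0) ∧ ∃ s ∈ S,
    ‖s‖ ≤ C * ‖a • p + b • q‖ ∧ ‖(hol γ).linear (a • p + b • q - s)‖ ≤ C * ‖a • p + b • q‖

/-- The linear holonomy of `H` preserves the subspace `V` and a quadratic form on `V` that is
positive definite on a subspace of `V` of codimension at most one, for instance a Lorentzian
form. -/
def LorentzOn (hol : Γ →* (E ≃ᵃ[ℝ] E)) (H : Subgroup Γ) (V : Submodule ℝ E) : Prop :=
  Invt hol H V ∧ ∃ (B : E →ₗ[ℝ] E →ₗ[ℝ] ℝ) (W : Submodule ℝ E), W ≤ V ∧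
    Module.finrank ℝ V ≤ Module.finrank ℝ W + 1 ∧ (∀ w ∈ W, w ≠ 0 → 0 < B w w) ∧
    ∀ γ ∈ H, ∀ v ∈ V, B ((hol γ).linear v) ((hol γ).linear v) = B v v

/-- The linear holonomy of `H` preserves the subspace `V`, of dimension at most two, with bounded
determinants on `V`. -/
def AreaOn (hol : Γ →* (E ≃ᵃ[ℝ] E)) (H : Subgroup Γ) (V : Submodule ℝ E) : Prop :=
  Invt hol H V ∧ Module.finrank ℝ V ≤ 2 ∧ ∃ c : ℝ, ∀ (γ : Γ)
    (h : ∀ v ∈ V, ((hol γ).linear : E →ₗ[ℝ] E) v ∈ V), γ ∈ H →
    |LinearMap.det (((hol γ).linear : E →ₗ[ℝ] E).restrict h)| ≤ c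

variable [FiniteDimensional ℝ E]

theorem thin_of_lorentz {hol : Γ →* (E ≃ᵃ[ℝ] E)} {H : Subgroup Γ} {V : Submodule ℝ E}
    (h : LorentzOn hol H V) (S : Submodule ℝ E) : ThinOn hol H V S := by
  obtain ⟨hV, B, W, hWV, hrank, hW, hB⟩ := h
  obtain ⟨C, hC, h1⟩ := Pool.Agent.Q185.MK.lorentz_thin B hWV hrank hW
  refine ⟨C, fun γ hγ p hp q hq => ?_⟩
  obtain ⟨a, b, hab, h2⟩ := h1 ((hol γ).linear : E →ₗ[ℝ] E) (hV γ hγ) (hB γ hγ) p hp q hq
  refine ⟨a, b, hab, 0, S.zero_mem, ?_, ?_⟩
  · rw [norm_zero]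
    positivity
  · rw [sub_zero]
    exact h2

theorem thin_of_area {hol : Γ →* (E ≃ᵃ[ℝ] E)} {H : Subgroup Γ} {V : Submodule ℝ E}
    (h : AreaOn hol H V) (S : Submodule ℝ E) : ThinOn hol H V S := by
  obtain ⟨hV, hrank, c, hc⟩ := h
  obtain ⟨C, hC⟩ : ∃ C : ℝ, C = |c| + 2 := ⟨_, rfl⟩
  have hC1 : 1 ≤ C := by rw [hC]; linarith [abs_nonneg c]
  have hcC : c < C := by rw [hC]; linarith [le_abs_self c]
  refine ⟨C, fun γ hγ p hp q hq => ?_⟩
  by_cases hli : LinearIndependent ℝ ![(⟨p, hp⟩ : V), ⟨q, hq⟩]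
  · have hnt : Nontrivial V := ⟨⟨⟨p, hp⟩, 0, by
      have := hli.ne_zero 0
      simpa using this⟩⟩
    have h2 : Module.finrank ℝ V = 2 := by
      refine le_antisymm hrank ?_
      have := hli.fintype_card_le_finrank
      simpa using this
    obtain ⟨d, hd0, hd⟩ := Pool.Agent.Q185.MK.area_dir hC1
      (((hol γ).linear : E →ₗ[ℝ] E).restrict (hV γ hγ)) ((hc γ (hV γ hγ) hγ).trans_lt hcC)
    have hspan := hli.span_eq_top_of_card_eq_finrank (by rw [h2]; rfl)
    have hdm : d ∈ Submodule.span ℝ (Set.range ![(⟨p, hp⟩ : V), ⟨q, hq⟩]) := by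
      rw [hspan]
      exact Submodule.mem_top
    rw [Matrix.range_cons, Matrix.range_cons, Matrix.range_empty, Set.union_empty,
      Set.singleton_union, Submodule.mem_span_pair] at hdm
    obtain ⟨a, b, hab⟩ := hdm
    have hab' : a • p + b • q = (d : E) := congrArg Subtype.val hab
    refine ⟨a, b, ?_, 0, S.zero_mem, ?_, ?_⟩
    · by_contra hcon
      push Not at hcon
      apply hd0
      rw [← hab, hcon.1, hcon.2, zero_smul, zero_smul, add_zero]
    · rw [norm_zero]
      positivity
    · rw [sub_zero, hab']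
      exact hd
  · rw [LinearIndependent.pair_iff] at hli
    push Not at hli
    obtain ⟨a, b, hab, h0⟩ := hli
    have h1 : a • p + b • q = 0 := congrArg Subtype.val hab
    refine ⟨a, b, ?_, 0, S.zero_mem, ?_, ?_⟩
    · by_cases ha : a = 0
      · exact Or.inr (h0 ha)
      · exact Or.inl ha
    · rw [h1, norm_zero, mul_zero]
    · rw [sub_zero, h1, map_zero, norm_zero, mul_zero]

/-- A closed affine manifold with parallel volume is given by a connected cover `X` with its group
`Γ`, developing map `dev` and holonomy `hol`; `H` is a subgroup of finite index of `Γ`. Let `S 0` be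
a space of velocities whose geodesics are defined up to time one, and suppose that the linear
holonomy of `H` is bounded on `S (i + 1)` modulo `S i` for `i < m` (for instance unipotent on `S m`
with `S 0 = 0`). Let `V` be a linear subspace on which the linear holonomy of `H` has discompacity
at most one modulo bounded corrections in `S m`; for instance `V` is invariant and Lorentzian, or
invariant of dimension two with bounded determinants. Then

(1) at every point, the velocities in `V + S m` whose geodesic is defined up to time one form a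
convex set,

(2) if `V + S m` is the whole space, the affine structure is complete: the developing map is a
homeomorphism onto the model space. -/
theorem result (E X Γ : Type) [NormedAddCommGroup E] [NormedSpace ℝ E] [FiniteDimensional ℝ E]
    [TopologicalSpace X] [T2Space X] [SecondCountableTopology X] [ConnectedSpace X]
    [Group Γ] [MulAction Γ X] (dev : X → E) (hol : Γ →* (E ≃ᵃ[ℝ] E))
    (D : AffData X Γ E dev hol) (H : Subgroup Γ) (hH : H.FiniteIndex)
    (S : ℕ → Submodule ℝ E) (m : ℕ) (hS : BddChain dev hol H S m) (V : Submodule ℝ E)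
    (hV : ThinOn hol H V (S m) ∨ LorentzOn hol H V ∨ AreaOn hol H V) :
    (∀ x : X, Convex ℝ {v : E | v ∈ V ⊔ S m ∧ Geod dev x v}) ∧
    (V ⊔ S m = ⊤ → IsHomeomorph dev) := by
  have DH := restrict D H hH
  have DM : Pool.Agent.W689.Ch.AffMfd X H E dev (hol.comp H.subtype) :=
    ⟨DH.loc, DH.cont, DH.equi, DH.pd, DH.cc⟩
  have hT' : ThinOn hol H V (S m) := by
    rcases hV with h | h | h
    · exact h
    · exact thin_of_lorentz h _
    · exact thin_of_area h _
  have hT : Pool.Agent.Q185.MK.Thin (hol.comp H.subtype) V (S m) := by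
    obtain ⟨C, hC⟩ := hT'
    exact ⟨C, fun γ p hp q hq => hC γ γ.2 p hp q hq⟩
  have hcm : ∀ (x : X), ∀ v ∈ S m, Vis dev x v := by
    refine chain_complete DH S m (fun x v hv => Geod.ex D.loc (hS.1 x v hv)) fun i hi => ?_
    obtain ⟨C, hC'⟩ := hS.2 i hi
    exact ⟨C, fun γ => hC' γ γ.2⟩
  refine ⟨fun x => ?_, fun hVS => Pool.Agent.Q185.MK.thin_complete DH hVS hcm hT⟩
  have h1 := Pool.Agent.Q185.MK.conv_sup DM hcm hT x
  have h2 : {v : E | v ∈ V ⊔ S m ∧ Geod dev x v} = {v | v ∈ V ⊔ S m ∧ Vis dev x v} := by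
    ext v
    exact and_congr_right fun _ => (Pool.Agent.Q185.MK.vis_iff_geod D.loc).symm
  rw [h2]
  exact h1

end Pool.Agent.Results.MP_df2bd8_gt.LorentzModuloChain
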